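import Mathlib

/-! Helper lemmas for travelling square waves. -/

open MeasureTheory Filter Topology

namespace Q74.Gas

/-- The square wave of period `1/(n+1)`. -/
noncomputable def sq (n : ℕ) (y : ℝ) : ℝ := if Int.fract (((n : ℝ) + 1) * y) < 1 / 2 then 1 else 0

lemma sq_or (n : ℕ) (y : ℝ) : sq n y = 0 ∨ sq n y = 1 := by
  unfold sq; split_ifs <;> simp

lemma sq_measurable (n : ℕ) : Measurable (sq n) := by
  unfold sq
  refine Measurable.ite ?_ measurable_const measurable_const
  exact measurableSet_lt (measurable_fract.comp (measurable_const.mul measurable_id))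
    measurable_const

lemma sq_shift (n : ℕ) (y : ℝ) : sq n (y + 1 / (2 * ((n : ℝ) + 1))) = 1 - sq n y := by
  unfold sq
  have h : ((n : ℝ) + 1) * (y + 1 / (2 * ((n : ℝ) + 1))) = ((n : ℝ) + 1) * y + 1 / 2 := by
    have : (n : ℝ) + 1 ≠ 0 := by positivity
    field_simp
  rw [h]
  set u := ((n : ℝ) + 1) * y
  have h0 := Int.fract_nonneg u
  have h1 := Int.fract_lt_one u
  by_cases hu : Int.fract u < 1 / 2
  · have : Int.fract (u + 1 / 2) = Int.fract u + 1 / 2 := by
      rw [Int.fract_eq_iff]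
      refine ⟨by linarith, by linarith, ⌊u⌋, ?_⟩
      have := Int.self_sub_floor u
      linarith
    rw [this, if_neg (by linarith), if_pos hu]; norm_num
  · have : Int.fract (u + 1 / 2) = Int.fract u - 1 / 2 := by
      rw [Int.fract_eq_iff]
      refine ⟨by linarith, by linarith, ⌊u⌋ + 1, ?_⟩
      have := Int.self_sub_floor u
      push_cast
      linarith
    rw [this, if_pos (by linarith), if_neg hu]; norm_num

/-- Translation in the first variable. -/
def tr (s : ℝ) : C(ℝ × ℝ, ℝ × ℝ) := ⟨fun z => z + (s, 0), by fun_prop⟩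

lemma tr_cont : Continuous tr := by
  let F : C(ℝ × (ℝ × ℝ), ℝ × ℝ) := ⟨fun q => q.2 + (q.1, 0), by fun_prop⟩
  exact F.curry.continuous

lemma tr_mp (s : ℝ) : MeasurePreserving (tr s) (volume : Measure (ℝ × ℝ)) volume :=
  measurePreserving_add_right volume ((s, 0) : ℝ × ℝ)

lemma translation_tendsto {g : ℝ × ℝ → ℝ} (hg : Integrable g) :
    Tendsto (fun s : ℝ => ∫ z, |g (z + (s, 0)) - g z|) (𝓝 0) (𝓝 0) := by
  let gL : Lp ℝ 1 (volume : Measure (ℝ × ℝ)) := (memLp_one_iff_integrable.mpr hg).toLp g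
  have hgL : (gL : ℝ × ℝ → ℝ) =ᵐ[volume] g := MemLp.coeFn_toLp _
  let F : ℝ → Lp ℝ 1 (volume : Measure (ℝ × ℝ)) := fun s =>
    Lp.compMeasurePreserving (tr s) (tr_mp s) gL
  have hF : Continuous F :=
    Continuous.compMeasurePreservingLp continuous_const tr_cont tr_mp (by simp)
  have h1 : Tendsto (fun s => ‖F s - F 0‖) (𝓝 0) (𝓝 0) := by
    have := ((hF.tendsto 0).sub_const (F 0)).norm
    simpa using this
  refine h1.congr (fun s => ?_)
  rw [L1.norm_eq_integral_norm]
  apply integral_congr_ae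
  have a1 : ∀ s, (F s : ℝ × ℝ → ℝ) =ᵐ[volume] fun z => g (z + (s, 0)) := by
    intro s
    have b1 := Lp.coeFn_compMeasurePreserving gL (tr_mp s)
    have b2 : (gL : ℝ × ℝ → ℝ) ∘ (tr s) =ᵐ[volume] g ∘ (tr s) :=
      (tr_mp s).quasiMeasurePreserving.ae_eq_comp hgL
    exact b1.trans b2
  filter_upwards [Lp.coeFn_sub (F s) (F 0), a1 s, a1 0] with z h1 h2 h3
  rw [h1, Pi.sub_apply, h2, h3, Real.norm_eq_abs]
  have h0 : z + ((0 : ℝ), (0 : ℝ)) = z := by
    ext <;> simp
  rw [h0]

/-- Weak convergence of the travelling square waves. -/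
lemma osc {g : ℝ × ℝ → ℝ} (hg : Integrable g) :
    Tendsto (fun n : ℕ => ∫ z : ℝ × ℝ, sq n (z.1 - z.2) * g z) atTop (𝓝 (1 / 2 * ∫ z, g z)) := by
  have hmeas : ∀ n, Measurable (fun z : ℝ × ℝ => sq n (z.1 - z.2)) := fun n =>
    (sq_measurable n).comp (measurable_fst.sub measurable_snd)
  have hint : ∀ n, ∀ f : ℝ × ℝ → ℝ, Integrable f →
      Integrable (fun z : ℝ × ℝ => sq n (z.1 - z.2) * f z) := by
    intro n f hf
    refine hf.bdd_mul (hmeas n).aestronglyMeasurable (c := 1) (Eventually.of_forall fun z => ?_)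
    rcases sq_or n (z.1 - z.2) with h | h <;> rw [h] <;> simp
  set s : ℕ → ℝ := fun n => 1 / (2 * ((n : ℝ) + 1)) with hs
  have hs0 : Tendsto s atTop (𝓝 0) := by
    have := (tendsto_one_div_add_atTop_nhds_zero_nat (𝕜 := ℝ)).const_mul (1 / 2)
    rw [mul_zero] at this
    refine this.congr (fun n => ?_)
    rw [hs]
    field_simp
  -- the key identity
  have key : ∀ n, ∫ z : ℝ × ℝ, sq n (z.1 - z.2) * g z =
      ∫ z : ℝ × ℝ, (1 - sq n (z.1 - z.2)) * g (z + (s n, 0)) := by
    intro n
    rw [← integral_add_right_eq_self (fun z : ℝ × ℝ => sq n (z.1 - z.2) * g z) ((s n, 0) : ℝ × ℝ)]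
    apply integral_congr_ae
    refine Eventually.of_forall fun z => ?_
    simp only [Prod.fst_add, Prod.snd_add, add_zero]
    rw [show z.1 + s n - z.2 = (z.1 - z.2) + s n by ring, hs]
    simp only
    rw [sq_shift]
  have hgs : ∀ n, Integrable (fun z : ℝ × ℝ => g (z + (s n, 0))) := fun n =>
    hg.comp_add_right ((s n, 0) : ℝ × ℝ)
  have hbound : ∀ n, |(∫ z : ℝ × ℝ, sq n (z.1 - z.2) * g z) - 1 / 2 * ∫ z, g z| ≤
      ∫ z, |g (z + (s n, 0)) - g z| := by
    intro n
    have e1 : 2 * (∫ z : ℝ × ℝ, sq n (z.1 - z.2) * g z) - ∫ z, g z =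
        ∫ z : ℝ × ℝ, (1 - sq n (z.1 - z.2)) * (g (z + (s n, 0)) - g z) := by
      have i1 : Integrable (fun z : ℝ × ℝ => (1 - sq n (z.1 - z.2)) * g (z + (s n, 0))) := by
        have := (hgs n).sub (hint n _ (hgs n))
        refine this.congr (Eventually.of_forall fun z => ?_)
        simp only [Pi.sub_apply]; ring
      have i2 : Integrable (fun z : ℝ × ℝ => (1 - sq n (z.1 - z.2)) * g z) := by
        have := hg.sub (hint n _ hg)
        refine this.congr (Eventually.of_forall fun z => ?_)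
        simp only [Pi.sub_apply]; ring
      have e2 : ∫ z : ℝ × ℝ, (1 - sq n (z.1 - z.2)) * g z =
          (∫ z, g z) - ∫ z : ℝ × ℝ, sq n (z.1 - z.2) * g z := by
        rw [← integral_sub hg (hint n _ hg)]
        congr 1
        funext z; ring
      have e3 : ∫ z : ℝ × ℝ, (1 - sq n (z.1 - z.2)) * (g (z + (s n, 0)) - g z) =
          (∫ z : ℝ × ℝ, (1 - sq n (z.1 - z.2)) * g (z + (s n, 0))) -
            ∫ z : ℝ × ℝ, (1 - sq n (z.1 - z.2)) * g z := by
        rw [← integral_sub i1 i2]
        congr 1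
        funext z; ring
      rw [e3, ← key n, e2]
      ring
    have e4 : |2 * (∫ z : ℝ × ℝ, sq n (z.1 - z.2) * g z) - ∫ z, g z| ≤
        ∫ z, |g (z + (s n, 0)) - g z| := by
      rw [e1]
      refine (abs_integral_le_integral_abs).trans ?_
      apply integral_mono_of_nonneg (Eventually.of_forall fun z => abs_nonneg _)
        ((hgs n).sub hg).abs
      refine Eventually.of_forall fun z => ?_
      simp only [abs_mul, Pi.sub_apply]
      rcases sq_or n (z.1 - z.2) with h | h <;> rw [h] <;> simp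
    have e5 : (∫ z : ℝ × ℝ, sq n (z.1 - z.2) * g z) - 1 / 2 * ∫ z, g z =
        1 / 2 * (2 * (∫ z : ℝ × ℝ, sq n (z.1 - z.2) * g z) - ∫ z, g z) := by ring
    rw [e5, abs_mul, abs_of_pos (by norm_num : (0 : ℝ) < 1 / 2)]
    have := abs_nonneg (2 * (∫ z : ℝ × ℝ, sq n (z.1 - z.2) * g z) - ∫ z, g z)
    linarith
  rw [tendsto_iff_norm_sub_tendsto_zero]
  exact squeeze_zero (fun n => norm_nonneg _) hbound ((translation_tendsto hg).comp hs0)

/-- Integrals of directional derivatives against functions constant along the direction. -/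
lemma dir_integral {φ : ℝ × ℝ → ℝ} (hφ : ContDiff ℝ ((⊤ : ℕ∞) : WithTop ℕ∞) φ)
    (hc : HasCompactSupport φ) (c : ℝ) {H : ℝ → ℝ} (hH : Measurable H) (hH1 : ∀ y, |H y| ≤ 1) :
    ∫ z : ℝ × ℝ, H (z.1 - c * z.2) * fderiv ℝ φ z (c, 1) = 0 := by
  have hd : ∀ z, HasFDerivAt φ (fderiv ℝ φ z) z := fun z =>
    (hφ.differentiable (by simp) z).hasFDerivAt
  have hcd : Continuous (fun z => fderiv ℝ φ z (c, 1)) :=
    (hφ.continuous_fderiv (by simp)).clm_apply continuous_const
  have hcs : HasCompactSupport (fun z => fderiv ℝ φ z (c, 1)) := by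
    have := hc.fderiv (𝕜 := ℝ)
    exact this.comp_left (g := fun L : (ℝ × ℝ) →L[ℝ] ℝ => L (c, 1)) (by simp)
  set G : ℝ × ℝ → ℝ := fun z => fderiv ℝ φ z (c, 1) with hG
  have hGint : Integrable G := hcd.integrable_of_hasCompactSupport hcs
  have hHm : Measurable (fun z : ℝ × ℝ => H (z.1 - c * z.2)) := by fun_prop
  have hint : Integrable (fun z : ℝ × ℝ => H (z.1 - c * z.2) * G z) :=
    hGint.bdd_mul hHm.aestronglyMeasurable (c := 1) (Eventually.of_forall fun z => hH1 _)
  -- the shear
  let e : ℝ × ℝ → ℝ × ℝ := fun z => (z.1 + c * z.2, z.2)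
  have he : MeasurePreserving e (volume : Measure (ℝ × ℝ)) volume := by
    have h1 : MeasurePreserving (fun z : ℝ × ℝ => (z.1, z.2 + c * z.1))
        (volume.prod volume) (volume.prod volume) :=
      MeasurePreserving.skew_product (MeasurePreserving.id volume)
        (g := fun x y => y + c * x) (by fun_prop)
        (Eventually.of_forall fun x => (measurePreserving_add_right volume (c * x)).map_eq)
    have h2 := (Measure.measurePreserving_swap (μ := (volume : Measure ℝ))
      (ν := (volume : Measure ℝ)))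
    have h3 := h2.comp (h1.comp h2)
    exact h3
  have hemb : MeasurableEmbedding e := by
    have hinj : Function.Injective e := by
      intro a b hab
      simp only [e, Prod.mk.injEq] at hab
      obtain ⟨h1, h2⟩ := hab
      ext
      · rw [h2] at h1; linarith
      · exact h2
    have hecont : Continuous e := by fun_prop
    exact hecont.measurableEmbedding hinj
  rw [← he.integral_comp hemb]
  have hint2 : Integrable (fun z : ℝ × ℝ => H z.1 * G (z.1 + c * z.2, z.2)) := by
    have := (he.integrable_comp_emb hemb (g := fun z : ℝ × ℝ => H (z.1 - c * z.2) * G z)).mpr hint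
    refine this.congr (Eventually.of_forall fun z => ?_)
    simp [e, Function.comp]
  have hrew : (fun z : ℝ × ℝ => H ((e z).1 - c * (e z).2) * G (e z)) =
      fun z : ℝ × ℝ => H z.1 * G (z.1 + c * z.2, z.2) := by
    funext z; simp [e]
  rw [hrew]
  rw [Measure.volume_eq_prod] at hint2 ⊢
  rw [integral_prod _ hint2]
  have hzero : ∀ y : ℝ, ∫ t : ℝ, H y * G (y + c * t, t) = 0 := by
    intro y
    rw [integral_const_mul]
    have hline : ∀ t : ℝ, HasDerivAt (fun t : ℝ => φ (y + c * t, t)) (G (y + c * t, t)) t := by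
      intro t
      have h1 : HasDerivAt (fun t : ℝ => ((y + c * t, t) : ℝ × ℝ)) (c, 1) t := by
        have a1 : HasDerivAt (fun t : ℝ => y + c * t) c t := by
          simpa using ((hasDerivAt_id t).const_mul c).const_add y
        exact a1.prodMk (hasDerivAt_id t)
      exact HasFDerivAt.comp_hasDerivAt (f := fun t : ℝ => ((y + c * t, t) : ℝ × ℝ)) t
        (hd (y + c * t, t)) h1
    have hcomp : ∀ ψ : ℝ × ℝ → ℝ, HasCompactSupport ψ →
        HasCompactSupport (fun t : ℝ => ψ (y + c * t, t)) := by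
      intro ψ hψ
      refine HasCompactSupport.intro (K := Prod.snd '' tsupport ψ)
        (hψ.isCompact.image continuous_snd) (fun t ht => ?_)
      by_contra hne
      exact ht ⟨(y + c * t, t), subset_tsupport ψ hne, rfl⟩
    have hf : Integrable (fun t : ℝ => φ (y + c * t, t)) :=
      (hφ.continuous.comp (by fun_prop)).integrable_of_hasCompactSupport (hcomp φ hc)
    have hf' : Integrable (fun t : ℝ => G (y + c * t, t)) :=
      (hcd.comp (by fun_prop)).integrable_of_hasCompactSupport (hcomp G hcs)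
    rw [integral_eq_zero_of_hasDerivAt_of_integrable hline hf' hf, mul_zero]
  simp [hzero]

end Q74.Gas
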